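import Mathlib
import Pool.Agent.H430P.Assembly2

namespace Pool.Agent.Results.MP_16ff77_co.DoubleRange

open Finset Filter Asymptotics

/-- The ordering of `X` induced by the permutation `ρ` (viewed as the linear order
`x <_ρ y ↔ ρ x < ρ y`), as a relation on `X`. -/
def inducedOrder {n : ℕ} (ρ : Equiv.Perm (Fin n)) (X : Finset (Fin n)) : X → X → Prop :=
  fun x y => ρ x < ρ y

/-- The family `P` `t`-shatters `X`: its members induce at least `t` distinct orderings of `X`. -/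
def Shatters {n : ℕ} (t : ℕ) (P : Finset (Equiv.Perm (Fin n))) (X : Finset (Fin n)) : Prop :=
  t ≤ ((fun ρ : Equiv.Perm (Fin n) => inducedOrder ρ X) '' (P : Set (Equiv.Perm (Fin n)))).ncard

/-- `f k n t` is the minimum size of a family of permutations of `[n]` that `t`-shatters every
`k`-element subset. -/
noncomputable def f (k n t : ℕ) : ℕ :=
  sInf {s | ∃ P : Finset (Equiv.Perm (Fin n)), P.card = s ∧
    ∀ X : Finset (Fin n), X.card = k → Shatters t P X}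

lemma f_le {k n t : ℕ} (P : Finset (Equiv.Perm (Fin n)))
    (h : ∀ X : Finset (Fin n), X.card = k → Shatters t P X) : f k n t ≤ P.card :=
  Nat.sInf_le ⟨P, rfl, h⟩

/-- the bound. -/
noncomputable def g (n : ℕ) : ℝ := √(Real.log n * Real.log (Real.log n))

lemma g_littleO : g =o[atTop] (fun n : ℕ => Real.log n) := by
  rw [isLittleO_iff]
  intro c hc
  have h1 : (fun n : ℕ => Real.log (Real.log n)) =o[atTop] (fun n : ℕ => Real.log n) :=
    (Real.isLittleO_log_id_atTop.comp_tendsto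
      (Real.tendsto_log_atTop.comp tendsto_natCast_atTop_atTop))
  rw [isLittleO_iff] at h1
  filter_upwards [h1 (show (0 : ℝ) < c ^ 2 by positivity), eventually_ge_atTop 16] with n hn h16
  have hn' : (1 : ℝ) ≤ n := by
    have : 1 ≤ n := by omega
    exact_mod_cast this
  have hl : 0 ≤ Real.log n := Real.log_nonneg hn'
  rw [Real.norm_eq_abs, Real.norm_eq_abs, abs_of_nonneg hl] at hn
  rw [Real.norm_eq_abs, Real.norm_eq_abs, abs_of_nonneg hl, g, abs_of_nonneg (Real.sqrt_nonneg _)]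
  apply Real.sqrt_le_iff.mpr
  refine ⟨by positivity, ?_⟩
  calc Real.log n * Real.log (Real.log n) ≤ Real.log n * (c ^ 2 * Real.log n) :=
        mul_le_mul_of_nonneg_left ((le_abs_self _).trans hn) hl
    _ = (c * Real.log n) ^ 2 := by ring

theorem result :
    -- (1) a family, for every `k ≥ 4` and every large `n`
    (∀ k : ℕ, 4 ≤ k → ∃ C : ℝ, 0 < C ∧ ∃ n₀ : ℕ, ∀ n : ℕ, n₀ ≤ n →
      ∃ P : Finset (Equiv.Perm (Fin n)),
        (P.card : ℝ) ≤ C * √(Real.log n * Real.log (Real.log n)) ∧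
        ∀ X : Finset (Fin n), X.card = k →
          Shatters (max 2 (Nat.clog 2 k - 2) * 2 ^ Nat.clog 2 k) P X) ∧
    -- (2) hence the bound for `f_k(n,t)` for all `t ≤ max(2, ⌈log₂ k⌉ - 2) * 2 ^ ⌈log₂ k⌉`
    (∀ k : ℕ, 4 ≤ k → ∃ C : ℝ, 0 < C ∧ ∃ n₀ : ℕ, ∀ n : ℕ, n₀ ≤ n →
      ∀ t ≤ max 2 (Nat.clog 2 k - 2) * 2 ^ Nat.clog 2 k,
      (f k n t : ℝ) ≤ C * √(Real.log n * Real.log (Real.log n))) ∧
    -- (3) hence `f_k(n,t) = o(log n)` in this range
    (∀ k : ℕ, 4 ≤ k → ∀ t ≤ max 2 (Nat.clog 2 k - 2) * 2 ^ Nat.clog 2 k,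
      (fun n : ℕ => (f k n t : ℝ)) =o[atTop] (fun n : ℕ => Real.log n)) ∧
    -- (4) in particular the conjecture holds for `k = 5`
    (∀ t ≤ 2 ^ (5 - 1), (fun n : ℕ => (f 5 n t : ℝ)) =o[atTop] (fun n : ℕ => Real.log n)) := by
  have h1 : ∀ k : ℕ, 4 ≤ k → ∃ C : ℝ, 0 < C ∧ ∃ n₀ : ℕ, ∀ n : ℕ, n₀ ≤ n →
      ∃ P : Finset (Equiv.Perm (Fin n)),
        (P.card : ℝ) ≤ C * √(Real.log n * Real.log (Real.log n)) ∧
        ∀ X : Finset (Fin n), X.card = k →
          Shatters (max 2 (Nat.clog 2 k - 2) * 2 ^ Nat.clog 2 k) P X := by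
    intro k hk
    have hc : 0 < Nat.clog 2 k := Nat.clog_pos (by norm_num) (by omega)
    have hc' : (0 : ℝ) < Nat.clog 2 k := by exact_mod_cast hc
    refine ⟨42 * ((2 * Nat.clog 2 k) * 2 ^ (2 * Nat.clog 2 k)), by positivity,
      max 16 (2 ^ (2 * Nat.clog 2 k)), ?_⟩
    intro n hn
    exact H430P.family_real2 k n hk (le_trans (le_max_left _ _) hn)
      (le_trans (le_max_right _ _) hn)
  have h2 : ∀ k : ℕ, 4 ≤ k → ∃ C : ℝ, 0 < C ∧ ∃ n₀ : ℕ, ∀ n : ℕ, n₀ ≤ n →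
      ∀ t ≤ max 2 (Nat.clog 2 k - 2) * 2 ^ Nat.clog 2 k,
      (f k n t : ℝ) ≤ C * √(Real.log n * Real.log (Real.log n)) := by
    intro k hk
    obtain ⟨C, hC, n₀, hP⟩ := h1 k hk
    refine ⟨C, hC, n₀, ?_⟩
    intro n hn t ht
    obtain ⟨P, hPc, hPX⟩ := hP n hn
    have : f k n t ≤ P.card := f_le P (fun X hX => le_trans ht (hPX X hX))
    exact le_trans (by exact_mod_cast this) hPc
  have h3 : ∀ k : ℕ, 4 ≤ k → ∀ t ≤ max 2 (Nat.clog 2 k - 2) * 2 ^ Nat.clog 2 k,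
      (fun n : ℕ => (f k n t : ℝ)) =o[atTop] (fun n : ℕ => Real.log n) := by
    intro k hk t ht
    obtain ⟨C, hC, n₀, hf⟩ := h2 k hk
    have hO : (fun n : ℕ => (f k n t : ℝ)) =O[atTop] g := by
      apply IsBigO.of_bound C
      filter_upwards [eventually_ge_atTop n₀] with n hn
      rw [Real.norm_eq_abs, Real.norm_eq_abs, abs_of_nonneg (Nat.cast_nonneg _),
        abs_of_nonneg (show 0 ≤ g n from Real.sqrt_nonneg _)]
      exact hf n hn t ht
    exact hO.trans_isLittleO g_littleO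
  refine ⟨h1, h2, h3, ?_⟩
  intro t ht
  have hclog : Nat.clog 2 5 = 3 := by
    apply le_antisymm
    · exact Nat.clog_le_of_le_pow (by norm_num)
    · by_contra hlt
      push Not at hlt
      have h4 : 5 ≤ 2 ^ Nat.clog 2 5 := Nat.le_pow_clog (by norm_num) 5
      have h5 : 2 ^ Nat.clog 2 5 ≤ 2 ^ 2 := Nat.pow_le_pow_right (by norm_num) (by omega)
      omega
  apply h3 5 (by norm_num) t
  rw [hclog]
  norm_num at ht ⊢
  exact ht

end Pool.Agent.Results.MP_16ff77_co.DoubleRange
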